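import Pool.Agent.H174.GP.StH

/-!
Proof of `Pool.Agent.H174.GP.S_IH` (from the integrated walk to `Hw`), by Abel summation.
-/

namespace Pool.Agent.H280.GP174

open Pool.Agent.H174.GP

theorem Iw_succ (ω : ℕ → ℝ) (n : ℕ) : Iw ω (n + 1) = Iw ω n + S ω (n + 1) := by
  unfold Iw
  exact Finset.sum_Icc_succ_top (by omega) _

theorem Hw_succ (ω : ℕ → ℝ) (n : ℕ) :
    Hw ω (n + 1) = Hw ω n + S ω (n + 1) / ((n : ℝ) + 1) := by
  unfold Hw
  rw [Finset.sum_Icc_succ_top (by omega)]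
  push_cast
  rfl

theorem abel (m : ℕ) (ω : ℕ → ℝ) (B : ℝ)
    (h : ∀ j ∈ Finset.Icc 1 m, -(((j : ℝ) + 1) * B) ≤ Iw ω j) (n : ℕ) (hn : n + 1 ≤ m) :
    Iw ω (n + 1) / ((n : ℝ) + 1) - B * (harmonic n : ℝ) ≤ Hw ω (n + 1) := by
  induction n with
  | zero =>
    rw [Iw_succ, Hw_succ]
    unfold Iw Hw
    simp
  | succ n ih =>
    have ih' := ih (by omega)
    have h1 := h (n + 1) (Finset.mem_Icc.2 ⟨by omega, by omega⟩)
    push_cast at h1
    rw [Iw_succ ω (n + 1), Hw_succ ω (n + 1), harmonic_succ]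
    push_cast
    have hn1 : (0 : ℝ) < (n : ℝ) + 1 := by positivity
    have hn2 : (0 : ℝ) < (n : ℝ) + 1 + 1 := by positivity
    have key : Iw ω (n + 1) / ((n : ℝ) + 1 + 1) - B * ((n : ℝ) + 1)⁻¹ ≤
        Iw ω (n + 1) / ((n : ℝ) + 1) := by
      have e1 : Iw ω (n + 1) / ((n : ℝ) + 1) - (Iw ω (n + 1) / ((n : ℝ) + 1 + 1) -
          B * ((n : ℝ) + 1)⁻¹) = (Iw ω (n + 1) + ((n : ℝ) + 1 + 1) * B) /
            (((n : ℝ) + 1) * ((n : ℝ) + 1 + 1)) := by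
        field_simp
        ring
      have e2 : 0 ≤ (Iw ω (n + 1) + ((n : ℝ) + 1 + 1) * B) /
            (((n : ℝ) + 1) * ((n : ℝ) + 1 + 1)) := by
        apply div_nonneg _ (by positivity)
        linarith
      linarith
    have e3 : (Iw ω (n + 1) + S ω (n + 1 + 1)) / ((n : ℝ) + 1 + 1) =
        Iw ω (n + 1) / ((n : ℝ) + 1 + 1) + S ω (n + 1 + 1) / ((n : ℝ) + 1 + 1) := add_div _ _ _
    rw [e3, mul_add]
    linarith

theorem gp_ih : Pool.Agent.H174.GP.S_IH := by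
  intro m ω B hB h x hx
  rw [Finset.mem_Icc] at hx
  obtain ⟨n, rfl⟩ : ∃ n, x = n + 1 := ⟨x - 1, by omega⟩
  have h1 := abel m ω B h n (by omega)
  have h2 := h (n + 1) (Finset.mem_Icc.2 hx)
  push_cast at h2 ⊢
  have hn1 : (0 : ℝ) < (n : ℝ) + 1 := by positivity
  have hlog : 0 ≤ Real.log ((n : ℝ) + 1) := by
    apply Real.log_nonneg
    have : (0 : ℝ) ≤ n := Nat.cast_nonneg n
    linarith
  have h3 : (harmonic n : ℝ) ≤ 1 + Real.log ((n : ℝ) + 1) := by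
    refine (harmonic_le_one_add_log n).trans ?_
    rcases Nat.eq_zero_or_pos n with h0 | h0
    · subst h0
      simp
    · have h0' : (0 : ℝ) < n := by exact_mod_cast h0
      have := Real.log_le_log h0' (by linarith : (n : ℝ) ≤ (n : ℝ) + 1)
      linarith
  have h4 : -(2 * B) ≤ Iw ω (n + 1) / ((n : ℝ) + 1) := by
    rw [le_div_iff₀ hn1]
    have : (0 : ℝ) ≤ n := Nat.cast_nonneg n
    nlinarith
  have h5 := mul_le_mul_of_nonneg_left h3 hB
  have h6 : 0 ≤ B * Real.log ((n : ℝ) + 1) := mul_nonneg hB hlog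
  nlinarith

end Pool.Agent.H280.GP174
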