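import Pool.Agent.H174.GP.StI

/-!
Proof of `Pool.Agent.H174.GP.S_low1` from `S_gcmp3`, `S_H2`, `S_gmax`, `S_helm`, `S_shiftC`.
-/

set_option autoImplicit false

open MeasureTheory Finset Filter Topology

namespace Pool.Agent.H280.GP174.Low1

open Pool.Agent.H174.GP

/-! ### positivity of `uu` -/

theorem lap_Ici : lap (Set.Ici (0 : ℝ)) ≠ 0 := by
  intro h
  unfold lap at h
  rw [withDensity_apply _ measurableSet_Ici] at h
  have h1 : ∫⁻ _ in Set.Icc (0 : ℝ) 1, ENNReal.ofReal (Real.exp (-1) / 2) ≤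
      ∫⁻ x in Set.Icc (0 : ℝ) 1, ENNReal.ofReal (Real.exp (-|x|) / 2) := by
    apply setLIntegral_mono' measurableSet_Icc
    intro x hx
    apply ENNReal.ofReal_le_ofReal
    apply div_le_div_of_nonneg_right _ (by norm_num)
    apply Real.exp_le_exp.mpr
    rw [abs_of_nonneg hx.1]
    linarith [hx.2]
  have h2 : ∫⁻ x in Set.Icc (0 : ℝ) 1, ENNReal.ofReal (Real.exp (-|x|) / 2) ≤
      ∫⁻ x in Set.Ici (0 : ℝ), ENNReal.ofReal (Real.exp (-|x|) / 2) :=
    lintegral_mono_set Set.Icc_subset_Ici_self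
  rw [h] at h2
  have h3 := h1.trans h2
  rw [setLIntegral_const, Real.volume_Icc, sub_zero, ENNReal.ofReal_one, mul_one] at h3
  have h4 : 0 < ENNReal.ofReal (Real.exp (-1) / 2) := ENNReal.ofReal_pos.mpr (by positivity)
  exact absurd h3 (not_le.mpr h4)

theorem uu_pos (L : ℕ) : 0 < uu L := by
  unfold uu
  rw [measureReal_def]
  apply ENNReal.toReal_pos _ (measure_ne_top _ _)
  have h1 : Set.pi (Finset.Icc 1 L : Finset ℕ) (fun _ : ℕ => Set.Ici (0 : ℝ)) ⊆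
      {ω : ℕ → ℝ | ∀ x ∈ Finset.Icc 1 L, 0 ≤ Ch ω L x} := by
    intro ω hω x _
    unfold Ch Cs
    apply Finset.sum_nonneg
    intro j hj
    have h0 : 0 ≤ ω j := hω j hj
    positivity
  have h2 : PP (Set.pi (Finset.Icc 1 L : Finset ℕ) (fun _ : ℕ => Set.Ici (0 : ℝ))) ≠ 0 := by
    unfold PP
    rw [Measure.infinitePi_pi _ (fun _ _ => measurableSet_Ici)]
    rw [Finset.prod_ne_zero_iff]
    intro _ _
    exact lap_Ici
  intro h3
  exact h2 (measure_mono_null h1 h3)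

/-! ### the constants -/

theorem consts (δ A ε : ℝ) (hδ : 0 < δ) (hA : 0 ≤ A) (hε : 0 < ε) :
    ∃ C : ℝ, 1 ≤ C ∧ ∀ l : ℝ, C ≤ l →
      (128 / δ) ^ 4 * (2 * (A + 1)) ^ 6 ≤ l ^ 3 ∧ 8 * (A + 2) / δ ≤ l ^ 2 ∧
      8 * ((A + 2) * l) * Real.exp (-(ε / 2 * l)) ≤ δ ∧
      Real.exp (-(ε / 2 * l)) + 45 * Real.exp (-l) ≤ Real.exp (-(1 / 4)) := by
  refine ⟨1 + (128 / δ) ^ 4 * (2 * (A + 1)) ^ 6 + 8 * (A + 2) / δ + 64 * (A + 2) / (ε ^ 2 * δ) +
    8 / ε + 180, ?_, ?_⟩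
  · have h1 : 0 ≤ (128 / δ) ^ 4 * (2 * (A + 1)) ^ 6 := by positivity
    have h2 : 0 ≤ 8 * (A + 2) / δ := by positivity
    have h3 : 0 ≤ 64 * (A + 2) / (ε ^ 2 * δ) := by positivity
    have h4 : 0 ≤ 8 / ε := by positivity
    linarith
  · intro l hl
    have h1 : 0 ≤ (128 / δ) ^ 4 * (2 * (A + 1)) ^ 6 := by positivity
    have h2 : 0 ≤ 8 * (A + 2) / δ := by positivity
    have h3 : 0 ≤ 64 * (A + 2) / (ε ^ 2 * δ) := by positivity
    have h4 : 0 ≤ 8 / ε := by positivity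
    have hl1 : 1 ≤ l := by linarith
    have hl0 : 0 < l := by linarith
    have e2 : l ≤ l ^ 2 := by nlinarith
    have e3 : l ≤ l ^ 3 := by nlinarith [sq_nonneg l]
    have hx : 0 < ε / 2 * l := by positivity
    have hexp : Real.exp (-(ε / 2 * l)) ≤ 8 / (ε ^ 2 * l ^ 2) := by
      have q := Real.quadratic_le_exp_of_nonneg hx.le
      rw [Real.exp_neg, inv_eq_one_div, div_le_div_iff₀ (Real.exp_pos _) (by positivity)]
      nlinarith
    refine ⟨by linarith, by linarith, ?_, ?_⟩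
    · have e5 : 8 * ((A + 2) * l) * Real.exp (-(ε / 2 * l)) ≤
          8 * ((A + 2) * l) * (8 / (ε ^ 2 * l ^ 2)) :=
        mul_le_mul_of_nonneg_left hexp (by positivity)
      have e6 : 8 * ((A + 2) * l) * (8 / (ε ^ 2 * l ^ 2)) = 64 * (A + 2) / (ε ^ 2 * l) := by
        field_simp
        ring
      have e7 : 64 * (A + 2) / (ε ^ 2 * δ) ≤ l := by linarith
      have e8 : 64 * (A + 2) / (ε ^ 2 * l) ≤ δ := by
        rw [div_le_iff₀ (by positivity)] at e7 ⊢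
        linarith
      linarith
    · have e5 : Real.exp (-(ε / 2 * l)) ≤ 1 / 4 := by
        have q := Real.add_one_le_exp (ε / 2 * l)
        have e6 : 8 / ε ≤ l := by linarith
        rw [div_le_iff₀ hε] at e6
        rw [Real.exp_neg, inv_le_comm₀ (Real.exp_pos _) (by norm_num)]
        linarith
      have e7 : Real.exp (-l) ≤ 1 / 180 := by
        have q := Real.add_one_le_exp l
        rw [Real.exp_neg, inv_le_comm₀ (Real.exp_pos _) (by norm_num)]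
        linarith
      have e8 : 1 / 2 ≤ Real.exp (-(1 / 4)) := by
        have := Real.add_one_le_exp (-(1 / 4 : ℝ))
        linarith
      linarith

/-- the pointwise estimate -/
theorem point (h2 : S_H2) (δ A ε l : ℝ) (L b : ℕ) (hδ : 0 < δ) (hA : 0 ≤ A)
    (hL : (L : ℝ) = Real.exp l) (hl : 1 ≤ l)
    (c1 : (128 / δ) ^ 4 * (2 * (A + 1)) ^ 6 ≤ l ^ 3) (c2 : 8 * (A + 2) / δ ≤ l ^ 2)
    (c3 : 8 * ((A + 2) * l) * Real.exp (-(ε / 2 * l)) ≤ δ)
    (hb : (b : ℝ) ≤ Real.exp ((1 - ε) * l)) (z : ℕ → ℝ)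
    (hz : ∀ j ∈ Finset.Icc 1 L, |z j| ≤ (A + 2) * l) (x : ℕ) (hx0 : l ^ 9 ≤ x) (hxb : x ≤ b)
    (hxL : x ≤ L)
    (hC : δ * Real.sqrt x - 32 * (2 * (A + 1) * l) ^ (3 / 2 : ℝ) * (x : ℝ) ^ (1 / 4 : ℝ) ≤
      Real.sqrt 2 * Ch z L x) : 0 ≤ Hz z L x := by
  have hl0 : 0 < l := by linarith
  have hxpos : (0 : ℝ) < x := lt_of_lt_of_le (by positivity) hx0
  have hx1 : 1 ≤ x := by
    have : 0 < x := by exact_mod_cast hxpos
    omega
  have hL1 : 1 ≤ L := hx1.trans hxL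
  have hs0 : 0 < Real.sqrt x := Real.sqrt_pos.mpr hxpos
  have hs2 : Real.sqrt x * Real.sqrt x = x := Real.mul_self_sqrt hxpos.le
  -- fourth root
  have hr0 : 0 < (x : ℝ) ^ (1 / 4 : ℝ) := Real.rpow_pos_of_pos hxpos _
  have hr2 : (x : ℝ) ^ (1 / 4 : ℝ) * (x : ℝ) ^ (1 / 4 : ℝ) = Real.sqrt x := by
    rw [← Real.rpow_add hxpos, Real.sqrt_eq_rpow]
    norm_num
  have hr4 : ((x : ℝ) ^ (1 / 4 : ℝ)) ^ 4 = x := by
    have : ((x : ℝ) ^ (1 / 4 : ℝ)) ^ 4 = ((x : ℝ) ^ (1 / 4 : ℝ) * (x : ℝ) ^ (1 / 4 : ℝ)) *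
        ((x : ℝ) ^ (1 / 4 : ℝ) * (x : ℝ) ^ (1 / 4 : ℝ)) := by ring
    rw [this, hr2, hs2]
  have hl2 : 0 < 2 * (A + 1) * l := by positivity
  have hm0 : 0 < (2 * (A + 1) * l) ^ (3 / 2 : ℝ) := Real.rpow_pos_of_pos hl2 _
  have hm4 : ((2 * (A + 1) * l) ^ (3 / 2 : ℝ)) ^ 4 = (2 * (A + 1) * l) ^ 6 := by
    rw [← Real.rpow_natCast, ← Real.rpow_mul hl2.le, ← Real.rpow_natCast]
    norm_num
  have hu : 128 / δ * (2 * (A + 1) * l) ^ (3 / 2 : ℝ) ≤ (x : ℝ) ^ (1 / 4 : ℝ) := by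
    have h4 : (128 / δ * (2 * (A + 1) * l) ^ (3 / 2 : ℝ)) ^ 4 ≤ ((x : ℝ) ^ (1 / 4 : ℝ)) ^ 4 := by
      rw [hr4, mul_pow, hm4]
      have e1 : (128 / δ) ^ 4 * (2 * (A + 1) * l) ^ 6 =
          (128 / δ) ^ 4 * (2 * (A + 1)) ^ 6 * l ^ 6 := by ring
      rw [e1]
      have e2 : (128 / δ) ^ 4 * (2 * (A + 1)) ^ 6 * l ^ 6 ≤ l ^ 3 * l ^ 6 :=
        mul_le_mul_of_nonneg_right c1 (by positivity)
      have e3 : l ^ 3 * l ^ 6 = l ^ 9 := by ring
      linarith
    exact le_of_pow_le_pow_left₀ (by norm_num) hr0.le h4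
  have hkey : 32 * (2 * (A + 1) * l) ^ (3 / 2 : ℝ) * (x : ℝ) ^ (1 / 4 : ℝ) ≤
      δ / 4 * Real.sqrt x := by
    rw [← hr2]
    have e1 : 128 * (2 * (A + 1) * l) ^ (3 / 2 : ℝ) ≤ δ * (x : ℝ) ^ (1 / 4 : ℝ) := by
      have := mul_le_mul_of_nonneg_left hu hδ.le
      have e2 : δ * (128 / δ * (2 * (A + 1) * l) ^ (3 / 2 : ℝ)) =
          128 * (2 * (A + 1) * l) ^ (3 / 2 : ℝ) := by field_simp
      linarith
    nlinarith
  -- lower bound for `Ch`
  have hCh : δ / 2 * Real.sqrt x ≤ Ch z L x := by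
    by_contra hcon
    push Not at hcon
    have hsq : Real.sqrt 2 ≤ 3 / 2 := by
      rw [Real.sqrt_le_left (by norm_num)]
      norm_num
    have hsq0 : 0 < Real.sqrt 2 := by positivity
    have e1 := mul_lt_mul_of_pos_left hcon hsq0
    have e2 : Real.sqrt 2 * (δ / 2 * Real.sqrt x) ≤ 3 / 2 * (δ / 2 * Real.sqrt x) :=
      mul_le_mul_of_nonneg_right hsq (by positivity)
    linarith
  -- comparison
  have hcmp := h2 L z ((A + 2) * l) hL1 (by positivity) hz x (Finset.mem_Icc.mpr ⟨hx1, hxL⟩)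
  have hlogx : Real.log x ≤ l := by
    have : Real.log x ≤ Real.log L := Real.log_le_log hxpos (by exact_mod_cast hxL)
    rwa [hL, Real.log_exp] at this
  have hlogx0 : 0 ≤ Real.log x := Real.log_nonneg (by exact_mod_cast hx1)
  have hsl : l ^ 4 ≤ Real.sqrt x := by
    apply Real.le_sqrt_of_sq_le
    have e1 : (l ^ 4) ^ 2 ≤ l ^ 9 := by
      rw [← pow_mul]
      exact pow_le_pow_right₀ hl (by norm_num)
    linarith
  have hpart1 : (A + 2) * l * (1 + Real.log x) ≤ δ / 4 * Real.sqrt x := by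
    have e1 : (A + 2) * l * (1 + Real.log x) ≤ (A + 2) * l * (2 * l) :=
      mul_le_mul_of_nonneg_left (by linarith) (by positivity)
    have e2 : 8 * (A + 2) ≤ δ * l ^ 2 := by
      rw [div_le_iff₀ hδ] at c2
      linarith
    have e3 : 8 * (A + 2) * l ^ 2 ≤ δ * l ^ 2 * l ^ 2 :=
      mul_le_mul_of_nonneg_right e2 (by positivity)
    have e4 : δ / 4 * l ^ 4 ≤ δ / 4 * Real.sqrt x :=
      mul_le_mul_of_nonneg_left hsl (by positivity)
    nlinarith
  have hsqrtL : Real.sqrt L = Real.exp (l / 2) := by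
    rw [hL, Real.exp_half]
  have hsx : Real.sqrt x ≤ Real.exp ((1 - ε) * l / 2) := by
    rw [Real.exp_half]
    apply Real.sqrt_le_sqrt
    have : (x : ℝ) ≤ b := by exact_mod_cast hxb
    linarith
  have hpart2 : 2 * ((A + 2) * l) * x / Real.sqrt L ≤ δ / 4 * Real.sqrt x := by
    rw [hsqrtL, div_le_iff₀ (Real.exp_pos _)]
    have e1 : Real.exp ((1 - ε) * l / 2) = Real.exp (-(ε / 2 * l)) * Real.exp (l / 2) := by
      rw [← Real.exp_add]
      congr 1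
      ring
    have e2 : 8 * ((A + 2) * l) * Real.sqrt x ≤ δ * Real.exp (l / 2) := by
      calc 8 * ((A + 2) * l) * Real.sqrt x ≤ 8 * ((A + 2) * l) * Real.exp ((1 - ε) * l / 2) :=
            mul_le_mul_of_nonneg_left hsx (by positivity)
        _ = 8 * ((A + 2) * l) * Real.exp (-(ε / 2 * l)) * Real.exp (l / 2) := by
            rw [e1]
            ring
        _ ≤ δ * Real.exp (l / 2) := mul_le_mul_of_nonneg_right c3 (Real.exp_pos _).le
    have e3 := mul_le_mul_of_nonneg_right e2 hs0.le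
    have e4 : 2 * ((A + 2) * l) * (x : ℝ) = 2 * ((A + 2) * l) * (Real.sqrt x * Real.sqrt x) := by
      rw [hs2]
    rw [e4]
    linarith
  have := (abs_le.mp hcmp).1
  linarith

/-! ### measurability is not needed: unions of arbitrary sets -/

theorem exponent (θ ε e1 : ℝ) (hε : 0 < ε) (he1 : 0 < e1) (he2 : e1 ≤ 1)
    (he3 : e1 * (8 * (|θ| + 1)) ≤ ε) : (1 + e1) * (θ + ε / 8) + e1 / 4 ≤ θ + ε / 2 := by
  have h1 : e1 * θ ≤ e1 * |θ| := mul_le_mul_of_nonneg_left (le_abs_self θ) he1.le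
  have h2 : 0 ≤ |θ| := abs_nonneg θ
  have h3 : e1 * ε ≤ ε := by nlinarith
  nlinarith

end Pool.Agent.H280.GP174.Low1

namespace Pool.Agent.H280.GP174

open Pool.Agent.H174.GP Low1

theorem gp_low1 (h1 : S_gcmp3) (h2 : S_H2) (h3 : S_gmax) (h4 : S_helm) (h5 : S_shiftC) :
    Pool.Agent.H174.GP.S_low1 := by
  intro θ hθ ε hε hε1
  -- constants
  obtain ⟨e1, he1, he2, he3⟩ : ∃ e1 : ℝ, 0 < e1 ∧ e1 ≤ 1 ∧ e1 * (8 * (|θ| + 1)) ≤ ε := by
    have hT : 0 < 8 * (|θ| + 1) := by positivity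
    refine ⟨min 1 (ε / (8 * (|θ| + 1))), by positivity, min_le_left _ _, ?_⟩
    calc min 1 (ε / (8 * (|θ| + 1))) * (8 * (|θ| + 1))
        ≤ ε / (8 * (|θ| + 1)) * (8 * (|θ| + 1)) :=
          mul_le_mul_of_nonneg_right (min_le_right _ _) hT.le
      _ = ε := div_mul_cancel₀ _ hT.ne'
  have hA : 0 ≤ |θ| + 2 := by positivity
  obtain ⟨C, hC1, hC⟩ := consts (e1 / 4) (|θ| + 2) ε (by positivity) hA hε
  have hlog : Tendsto (fun L : ℕ => Real.log L) atTop atTop :=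
    Real.tendsto_log_atTop.comp tendsto_natCast_atTop_atTop
  have hev1 := hlog.eventually_ge_atTop C
  have hev2 : ∀ᶠ L : ℕ in atTop, -Real.log (uu L) / Real.log L < θ + ε / 8 := by
    have := hθ.eventually (gt_mem_nhds (show θ < θ + ε / 8 by linarith))
    exact this
  obtain ⟨L0, hL0⟩ := eventually_atTop.mp (hev1.and (hev2.and (eventually_ge_atTop 2)))
  refine ⟨L0, fun L hL b hb => ?_⟩
  obtain ⟨hl, hu, hL2⟩ := hL0 L hL
  obtain ⟨c1, c2, c3, c4⟩ := hC _ hl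
  have hLpos : (0 : ℝ) < L := by
    have : 0 < L := by omega
    exact_mod_cast this
  have hl1 : 1 ≤ Real.log L := hC1.trans hl
  have hl0 : 0 < Real.log L := by linarith
  have hLexp : (L : ℝ) = Real.exp (Real.log L) := (Real.exp_log hLpos).symm
  have hrp : ∀ s : ℝ, (L : ℝ) ^ s = Real.exp (s * Real.log L) := by
    intro s
    rw [Real.rpow_def_of_pos hLpos, mul_comm]
  rw [hrp] at hb ⊢
  have hbL : (b : ℝ) ≤ L := by
    refine hb.trans ?_
    conv_rhs => rw [hLexp]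
    apply Real.exp_le_exp.mpr
    nlinarith
  -- step 1
  have hulog : -((θ + ε / 8) * Real.log L) ≤ Real.log (uu L) := by
    rw [div_lt_iff₀ hl0] at hu
    linarith
  have s1 := h5 e1 (e1 / 4) L (Finset.Icc 1 L) (fun _ => 0) he1 he2 (by positivity) (le_refl _)
    (by omega) (Finset.Subset.refl _)
  have s2 : Real.exp (-((θ + ε / 2) * Real.log L) - 1 / 4) ≤
      PP.real {ω | ∀ x ∈ Finset.Icc 1 L, 0 + e1 / 4 * Real.sqrt x ≤ Ch ω L x} := by
    refine le_trans ?_ s1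
    have g1 : (uu L) ^ (1 + e1) = Real.exp (Real.log (uu L) * (1 + e1)) :=
      Real.rpow_def_of_pos (uu_pos L) _
    have g2 : (PP.real {ω | ∀ x ∈ Finset.Icc 1 L, (fun _ : ℕ => (0 : ℝ)) x ≤ Ch ω L x}) = uu L := rfl
    rw [g2, g1, ← Real.exp_add]
    apply Real.exp_le_exp.mpr
    have g3 : 4 / e1 * ((e1 / 4) ^ 2 * (1 + Real.log L)) = e1 / 4 * (1 + Real.log L) := by
      field_simp
    rw [g3]
    have g4 := exponent θ ε e1 hε he1 he2 he3
    have g5 := mul_le_mul_of_nonneg_right g4 hl0.le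
    have g6 := mul_le_mul_of_nonneg_right hulog (by linarith : (0 : ℝ) ≤ 1 + e1)
    nlinarith
  -- step 2
  set X : Finset ℕ := Finset.Icc ⌈(Real.log L) ^ 9⌉₊ b with hX
  have hXsub : X ⊆ Finset.Icc 1 L := by
    intro x hx
    rw [hX, Finset.mem_Icc] at hx
    rw [Finset.mem_Icc]
    constructor
    · have : 0 < ⌈(Real.log L) ^ 9⌉₊ := Nat.ceil_pos.mpr (by positivity)
      omega
    · have : b ≤ L := by exact_mod_cast hbL
      omega
  have s3 : PP.real {ω | ∀ x ∈ Finset.Icc 1 L, 0 + e1 / 4 * Real.sqrt x ≤ Ch ω L x} ≤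
      PP.real {ω | ∀ x ∈ X, e1 / 4 * Real.sqrt x ≤ Ch ω L x} := by
    refine measureReal_mono ?_ (measure_ne_top _ _)
    intro ω hω x hx
    have := hω x (hXsub hx)
    linarith
  have s4 := h1 L (|θ| + 2) X (fun x => e1 / 4 * Real.sqrt x) hL2 hA (by nlinarith) hXsub
  -- step 3
  have s5 : GA.real {z | ∀ x ∈ X, e1 / 4 * Real.sqrt x -
      32 * (2 * (|θ| + 2 + 1) * Real.log L) ^ (3 / 2 : ℝ) * (x : ℝ) ^ (1 / 4 : ℝ) ≤
        Real.sqrt 2 * Ch z L x} ≤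
      GA.real {z | ∀ x ∈ X, (fun _ : ℕ => (0 : ℝ)) x ≤ Hz z L x} +
        GA.real {z | ∃ j ∈ Finset.Icc 1 L, (|θ| + 2 + 2) * Real.log L < |z j|} := by
    refine le_trans (measureReal_mono ?_ (measure_ne_top _ _)) (measureReal_union_le _ _)
    intro z hz
    by_cases hmax : ∃ j ∈ Finset.Icc 1 L, (|θ| + 2 + 2) * Real.log L < |z j|
    · exact Or.inr hmax
    · left
      push Not at hmax
      intro x hx
      have hxL := Finset.mem_Icc.mp (hXsub hx)
      have hx' := hx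
      rw [hX, Finset.mem_Icc] at hx'
      have hx0 : (Real.log L) ^ 9 ≤ x := Nat.ceil_le.mp hx'.1
      exact point h2 (e1 / 4) (|θ| + 2) ε (Real.log L) L b (by positivity) hA hLexp hl1 c1 c2 c3 hb
        z hmax x hx0 hx'.2 hxL.2 (hz x hx)
  have s6 := h3 L ((|θ| + 2 + 2) * Real.log L) (by positivity)
  have s7 := h4 L X (fun _ => 0) (by omega) hXsub
  -- conclusion
  have s8 : 4 * (L : ℝ) * Real.exp (-((|θ| + 2 + 2) * Real.log L)) ≤
      4 * Real.exp (-(|θ| + 2) * Real.log L) := by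
    have g1 : 4 * (L : ℝ) * Real.exp (-((|θ| + 2 + 2) * Real.log L)) =
        4 * Real.exp (Real.log L + -((|θ| + 2 + 2) * Real.log L)) := by
      rw [Real.exp_add, ← hLexp]
      ring
    rw [g1]
    apply mul_le_mul_of_nonneg_left _ (by norm_num)
    apply Real.exp_le_exp.mpr
    nlinarith
  rw [hrp] at s4
  have s9 : Real.exp ((-θ - ε) * Real.log L) + 45 * Real.exp (-(|θ| + 2) * Real.log L) ≤
      Real.exp (-((θ + ε / 2) * Real.log L) - 1 / 4) := by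
    have g1 : Real.exp ((-θ - ε) * Real.log L) =
        Real.exp (-((θ + ε / 2) * Real.log L)) * Real.exp (-(ε / 2 * Real.log L)) := by
      rw [← Real.exp_add]
      congr 1
      ring
    have g2 : Real.exp (-(|θ| + 2) * Real.log L) ≤
        Real.exp (-((θ + ε / 2) * Real.log L)) * Real.exp (-Real.log L) := by
      rw [← Real.exp_add]
      apply Real.exp_le_exp.mpr
      have g3 : θ + ε / 2 + 1 ≤ |θ| + 2 := by
        have := le_abs_self θ
        linarith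
      have g4 := mul_le_mul_of_nonneg_right g3 hl0.le
      linarith
    have g5 : Real.exp (-((θ + ε / 2) * Real.log L) - 1 / 4) =
        Real.exp (-((θ + ε / 2) * Real.log L)) * Real.exp (-(1 / 4)) := by
      rw [← Real.exp_add]
      congr 1
    rw [g1, g5]
    have g6 := mul_le_mul_of_nonneg_left c4 (Real.exp_pos (-((θ + ε / 2) * Real.log L))).le
    rw [mul_add] at g6
    linarith
  have s10 : GA.real {z | ∀ x ∈ X, 0 ≤ Hw z x} = GA.real {z | ∀ x ∈ X, (fun _ : ℕ => (0 : ℝ)) x ≤ Hz z L x} := s7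
  rw [s10]
  linarith

end Pool.Agent.H280.GP174
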